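import Pool.Agent.K3h40.E2.SindA

/-!
# The index theorem for `A`-units (brick SIND, for helper56)
-/

set_option autoImplicit false

open NumberField IsDedekindDomain

noncomputable section

namespace Pool.Agent.K3h40.E2

open Pool.Agent.K3h30.RS Pool.Agent.K3h56.E2

section av

variable {K : Type} [Field K] [NumberField K]

theorem av_one' (w : Place K) : av w (1 : K) = 1 := by
  rcases w with w | w
  · show w 1 ^ w.mult = 1
    rw [map_one, one_pow]
  · show HeightOneSpectrum.adicAbv K w 1 = 1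
    rw [map_one]

theorem av_mul' (w : Place K) (x y : K) : av w (x * y) = av w x * av w y := by
  rcases w with w | w
  · show w (x * y) ^ w.mult = w x ^ w.mult * w y ^ w.mult
    rw [map_mul, mul_pow]
  · show HeightOneSpectrum.adicAbv K w (x * y) = _ * _
    rw [map_mul]
    rfl

theorem av_ne' (w : Place K) (x : Kˣ) : av w (x : K) ≠ 0 := by
  rcases w with w | w
  · exact pow_ne_zero _ ((map_ne_zero w).2 x.ne_zero)
  · exact (map_ne_zero (HeightOneSpectrum.adicAbv K w)).2 x.ne_zero

/-- The logarithmic map. -/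
def Lm {ι : Type} (u : ι → Place K) : Kˣ →* Multiplicative (ι → ℝ) where
  toFun x := Multiplicative.ofAdd fun a => Real.log (av (u a) (x : K))
  map_one' := by
    apply Multiplicative.toAdd.injective
    funext a
    show Real.log (av (u a) ((1 : Kˣ) : K)) = 0
    rw [Units.val_one, av_one', Real.log_one]
  map_mul' x y := by
    apply Multiplicative.toAdd.injective
    funext a
    show Real.log (av (u a) ((x * y : Kˣ) : K)) = Real.log (av (u a) (x : K)) +
      Real.log (av (u a) (y : K))
    rw [Units.val_mul, av_mul', Real.log_mul (av_ne' _ _) (av_ne' _ _)]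

theorem mu_log {ι : Type} (u : ι → Place K) (z : Kˣ) (hz : z ∈ mu K) : Lm u z = 1 := by
  obtain ⟨n, hn, hzn⟩ := isOfFinOrder_iff_pow_eq_one.1 hz
  have h1 : (Lm u z) ^ n = 1 := by rw [← map_pow, hzn, map_one]
  apply Multiplicative.toAdd.injective
  funext a
  have h2 := congrFun (congrArg Multiplicative.toAdd h1) a
  rw [toAdd_pow, Pi.smul_apply, nsmul_eq_mul] at h2
  have h3 : (n : ℝ) ≠ 0 := by exact_mod_cast hn.ne'
  exact (mul_eq_zero.1 h2).resolve_left h3

theorem mu_le (A : Set (HeightOneSpectrum (𝓞 K))) : mu K ≤ SU K A := by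
  intro z hz w _
  obtain ⟨n, hn, hzn⟩ := isOfFinOrder_iff_pow_eq_one.1 hz
  have h1 : (w.valuation K (z : K)) ^ n = 1 := by
    rw [← map_pow, ← Units.val_pow_eq_pow_val, hzn, Units.val_one, map_one]
  exact (pow_eq_one_iff.1 h1).resolve_right hn.ne'

theorem unit_mem (A : Set (HeightOneSpectrum (𝓞 K))) (ε : (𝓞 K)ˣ) :
    Units.map (algebraMap (𝓞 K) K : 𝓞 K →* K) ε ∈ SU K A := by
  intro w _
  show w.valuation K (algebraMap (𝓞 K) K (ε : 𝓞 K)) = 1
  have h1 := w.valuation_le_one (K := K) (ε : 𝓞 K)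
  have h2 := w.valuation_le_one (K := K) ((ε⁻¹ : (𝓞 K)ˣ) : 𝓞 K)
  have h3 : w.valuation K (algebraMap (𝓞 K) K (ε : 𝓞 K)) *
      w.valuation K (algebraMap (𝓞 K) K ((ε⁻¹ : (𝓞 K)ˣ) : 𝓞 K)) = 1 := by
    rw [← map_mul, ← map_mul, Units.mul_inv, map_one, map_one]
  exact le_antisymm h1 (by
    by_contra hlt
    push Not at hlt
    have := mul_lt_one_of_lt_of_le hlt h2
    rw [h3] at this
    exact lt_irrefl _ this)

end av

/-- **SIND**. -/
theorem t_SIND (VAL : S_VAL) (D : S_DETIDX) : S_SIND := by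
  classical
  intro K _ _ A ι _ _ u hu huA hcard x hx
  obtain ⟨ord, ho1, ho2, ho3⟩ := VAL K A
  obtain ⟨y, hy⟩ := gens ((SU K (A : Set (HeightOneSpectrum (𝓞 K)))).map ord)
  have hyV : ∀ Q, ∃ z ∈ SU K (A : Set (HeightOneSpectrum (𝓞 K))), ord z = y Q := fun Q => by
    have : y Q ∈ (SU K (A : Set (HeightOneSpectrum (𝓞 K)))).map ord :=
      hy ▸ Subgroup.subset_closure (Set.mem_range_self Q)
    exact this
  choose z hzV hz using hyV
  obtain ⟨w₀⟩ : Nonempty (InfinitePlace K) := inferInstance
  have hrank : Fintype.card {w : InfinitePlace K // w ≠ w₀} = Units.rank K := by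
    rw [Fintype.card_subtype_compl, Fintype.card_subtype_eq]
    rfl
  let q : {w : InfinitePlace K // w ≠ w₀} ≃ Fin (Units.rank K) := Fintype.equivFinOfCardEq hrank
  let ε : {w : InfinitePlace K // w ≠ w₀} → Kˣ := fun w =>
    Units.map (algebraMap (𝓞 K) K : 𝓞 K →* K) (Units.fundSystem K (q w))
  let e₀ : {w : InfinitePlace K // w ≠ w₀} ⊕ A → Kˣ := Sum.elim ε z
  have he₀V : ∀ i, e₀ i ∈ SU K (A : Set (HeightOneSpectrum (𝓞 K))) := by
    rintro (w | Q)
    · exact unit_mem _ _
    · exact hzV Q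
  have hI : 0 < Fintype.card (InfinitePlace K) := Fintype.card_pos
  have hc1 : Fintype.card {w : InfinitePlace K // w ≠ w₀} + 1 =
      Fintype.card (InfinitePlace K) := by
    rw [Fintype.card_subtype_compl, Fintype.card_subtype_eq]
    omega
  have hc0 : Fintype.card ι = Fintype.card ({w : InfinitePlace K // w ≠ w₀} ⊕ A) := by
    rw [Fintype.card_sum, Fintype.card_coe]
    omega
  let g : ι ≃ {w : InfinitePlace K // w ≠ w₀} ⊕ A := Fintype.equivOfCardEq hc0
  let M : InfinitePlace K ⊕ A → ι → ℝ := fun t b => Real.log (av (pl K A t) (e₀ (g b) : K))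
  have hMsum : ∀ b, ∑ t, M t b = 0 := fun b => prodF K A _ (he₀V (g b))
  have hu' : ∀ a, ∃ t, pl K A t = u a := by
    intro a
    rcases h : u a with w | P
    · exact ⟨Sum.inl w, rfl⟩
    · exact ⟨Sum.inr ⟨P, huA a P h⟩, rfl⟩
  choose u' hu' using hu'
  have hu'inj : Function.Injective u' := fun a b h => hu (by rw [← hu', ← hu', h])
  let v0 : {w : InfinitePlace K // w ≠ w₀} ⊕ A → InfinitePlace K ⊕ A := Sum.map Subtype.val id
  have hv0 : Function.Injective v0 :=
    Sum.map_injective.2 ⟨Subtype.val_injective, Function.injective_id⟩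
  have hmin := minors (InfinitePlace K ⊕ A) ι (by
    rw [Fintype.card_sum, Fintype.card_coe]
    omega) M hMsum u' (fun a => v0 (g a)) hu'inj (hv0.comp g.injective)
  -- the block determinant
  let B : Matrix ({w : InfinitePlace K // w ≠ w₀} ⊕ A) ({w : InfinitePlace K // w ≠ w₀} ⊕ A) ℝ :=
    Matrix.of fun i j => Real.log (av (pl K A (v0 i)) (e₀ j : K))
  have hB : |(Matrix.of fun a b : ι => M (v0 (g a)) b).det| = |B.det| :=
    Matrix.abs_det_submatrix_equiv_equiv g g B
  let R : Matrix {w : InfinitePlace K // w ≠ w₀} {w : InfinitePlace K // w ≠ w₀} ℝ :=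
    Matrix.of fun w w' => Real.log (w.1 (ε w' : K) ^ w.1.mult)
  let Y : Matrix A A ℝ := Matrix.of fun P Q => (-Real.log (Ideal.absNorm P.1.asIdeal)) *
    ((Multiplicative.toAdd (y Q) P : ℤ) : ℝ)
  have hBb : B = Matrix.fromBlocks R
      (Matrix.of fun (w : {w : InfinitePlace K // w ≠ w₀}) (Q : A) =>
        Real.log (w.1 (z Q : K) ^ w.1.mult)) 0 Y := by
    ext i j
    rcases i with w | P <;> rcases j with w' | Q
    · rfl
    · rfl
    · show Real.log (av (Sum.inr P.1) (ε w' : K)) = 0
      have h1 : (Units.map (algebraMap (𝓞 K) K : 𝓞 K →* K) (Units.fundSystem K (q w')) : Kˣ) ∈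
          SU K (∅ : Set (HeightOneSpectrum (𝓞 K))) := unit_mem _ _
      have h2 := adic_one P.1 _ (h1 P.1 (Set.notMem_empty _))
      show Real.log (HeightOneSpectrum.adicAbv K P.1 (ε w' : K)) = 0
      rw [h2, Real.log_one]
    · show Real.log (av (Sum.inr P.1) (z Q : K)) = (-Real.log (Ideal.absNorm P.1.asIdeal)) *
        ((Multiplicative.toAdd (y Q) P : ℤ) : ℝ)
      rw [ho1, hz]
      ring
  have hR : |R.det| = Units.regulator K := by
    rw [Units.regulator_eq_det K w₀ q, ← Matrix.det_transpose]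
    congr 2
    · ext i w
      show Real.log (w.1 (ε i : K) ^ w.1.mult) = _
      rw [Real.log_pow]
      rfl
  have hY : |Y.det| = (Nat.card (CA (A : Set (HeightOneSpectrum (𝓞 K)))) : ℝ) *
      ∏ P ∈ A, Real.log (Ideal.absNorm P.asIdeal) := by
    have h1 : Y.det = (∏ P : A, (-Real.log (Ideal.absNorm P.1.asIdeal))) *
        (Matrix.of fun a b : A => ((Multiplicative.toAdd (y b) a : ℤ) : ℝ)).det :=
      Matrix.det_mul_column _ _
    rw [h1, abs_mul, idx D _ y hy, ho2, Finset.abs_prod, mul_comm]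
    congr 1
    rw [← Finset.prod_coe_sort A (fun P => Real.log (Ideal.absNorm P.asIdeal))]
    apply Finset.prod_congr rfl
    intro P _
    rw [abs_neg, abs_of_nonneg (Real.log_natCast_nonneg _)]
  have hdetE : |(Matrix.of fun a b : ι => Multiplicative.toAdd (Lm u (e₀ (g b))) a).det| =
      Units.regulator K * (Nat.card (CA (A : Set (HeightOneSpectrum (𝓞 K)))) : ℝ) *
        ∏ P ∈ A, Real.log (Ideal.absNorm P.asIdeal) := by
    have h1 : (Matrix.of fun a b : ι => Multiplicative.toAdd (Lm u (e₀ (g b))) a) =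
        Matrix.of fun a b : ι => M (u' a) b := by
      ext a b
      show Real.log (av (u a) (e₀ (g b) : K)) = Real.log (av (pl K A (u' a)) (e₀ (g b) : K))
      rw [hu']
    rw [h1, hmin, hB, hBb, Matrix.det_fromBlocks_zero₂₁, abs_mul, hR, hY, mul_assoc]
  have hpos : 0 < Units.regulator K * (Nat.card (CA (A : Set (HeightOneSpectrum (𝓞 K)))) : ℝ) *
        ∏ P ∈ A, Real.log (Ideal.absNorm P.asIdeal) := by
    refine mul_pos (mul_pos (Units.regulator_pos K) ?_) (Finset.prod_pos fun P _ => ?_)
    · exact_mod_cast Nat.card_pos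
    · apply Real.log_pos
      exact_mod_cast NumberField.HeightOneSpectrum.one_lt_absNorm P
  -- the system is fundamental
  have hclos : Subgroup.closure (Set.range fun b : ι => e₀ (g b)) ⊔ mu K =
      SU K (A : Set (HeightOneSpectrum (𝓞 K))) := by
    apply le_antisymm
    · refine sup_le ?_ (mu_le _)
      rw [Subgroup.closure_le]
      rintro _ ⟨b, rfl⟩
      exact he₀V (g b)
    · have hin : ∀ i, e₀ i ∈ Subgroup.closure (Set.range fun b : ι => e₀ (g b)) ⊔ mu K := by
        intro i
        apply Subgroup.mem_sup_left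
        apply Subgroup.subset_closure
        exact ⟨g.symm i, by show e₀ (g (g.symm i)) = e₀ i; rw [Equiv.apply_symm_apply]⟩
      intro t ht
      have h1 : ord t ∈ (Subgroup.closure (Set.range z)).map ord := by
        rw [MonoidHom.map_closure, ← Set.range_comp]
        have h2 : (ord ∘ z) = y := funext hz
        rw [h2, hy]
        exact Subgroup.mem_map_of_mem ord ht
      obtain ⟨s, hs, hst⟩ := h1
      have hsin : s ∈ Subgroup.closure (Set.range fun b : ι => e₀ (g b)) ⊔ mu K := by
        have h3 : Subgroup.closure (Set.range z) ≤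
            Subgroup.closure (Set.range fun b : ι => e₀ (g b)) ⊔ mu K := by
          rw [Subgroup.closure_le]
          rintro _ ⟨Q, rfl⟩
          exact hin (Sum.inr Q)
        exact h3 hs
      have hsV : s ∈ SU K (A : Set (HeightOneSpectrum (𝓞 K))) := by
        have h3 : Subgroup.closure (Set.range z) ≤ SU K (A : Set (HeightOneSpectrum (𝓞 K))) := by
          rw [Subgroup.closure_le]
          rintro _ ⟨Q, rfl⟩
          exact hzV Q
        exact h3 hs
      obtain ⟨η, hη⟩ := (ho3 (t * s⁻¹) (Subgroup.mul_mem _ ht (Subgroup.inv_mem _ hsV))).1 (by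
        rw [map_mul, map_inv, hst, mul_inv_cancel])
      have h4 : t * s⁻¹ = Units.map (algebraMap (𝓞 K) K : 𝓞 K →* K) η := Units.ext hη
      obtain ⟨⟨ζ, k⟩, hζ, -⟩ := Units.exist_unique_eq_mul_prod K η
      have h5 : t * s⁻¹ ∈ Subgroup.closure (Set.range fun b : ι => e₀ (g b)) ⊔ mu K := by
        rw [h4, hζ, map_mul, map_prod]
        refine Subgroup.mul_mem _ (Subgroup.mem_sup_right ?_) (Subgroup.prod_mem _ fun i _ => ?_)
        · obtain ⟨n, hn, hzn⟩ := isOfFinOrder_iff_pow_eq_one.1 ζ.2
          exact isOfFinOrder_iff_pow_eq_one.2 ⟨n, hn, by rw [← map_pow, hzn, map_one]⟩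
        · rw [map_zpow]
          apply Subgroup.zpow_mem
          have h6 := hin (Sum.inl (q.symm i))
          have h7 : e₀ (Sum.inl (q.symm i)) =
              Units.map (algebraMap (𝓞 K) K : 𝓞 K →* K) (Units.fundSystem K i) := by
            show Units.map _ (Units.fundSystem K (q (q.symm i))) = _
            rw [Equiv.apply_symm_apply]
          rw [h7] at h6
          exact h6
      have h8 : t = (t * s⁻¹) * s := by rw [inv_mul_cancel_right]
      rw [h8]
      exact Subgroup.mul_mem _ h5 hsin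
  have hfin := D Kˣ ι (Lm u) (SU K (A : Set (HeightOneSpectrum (𝓞 K)))) (mu K) (mu_le _)
    (fun t ht => mu_log u t ht) (fun b => e₀ (g b)) x hclos hx (by
      intro h0
      rw [h0, abs_zero] at hdetE
      exact hpos.ne hdetE)
  rw [hdetE] at hfin
  exact hfin

end Pool.Agent.K3h40.E2
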