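import Pool.Agent.K3h56.E2.Stm3

/-!
# The index theorem for `A`-units: auxiliary results (brick SIND, for helper56)
-/

set_option autoImplicit false

open NumberField IsDedekindDomain

noncomputable section

namespace Pool.Agent.K3h40.E2

open Pool.Agent.K3h30.RS Pool.Agent.K3h56.E2

/-- The maximal minors of an `(n + 1) × n` matrix with column sums zero. -/
theorem minors (T ι : Type) [Fintype T] [DecidableEq T] [Fintype ι] [DecidableEq ι]
    (hc : Fintype.card T = Fintype.card ι + 1) (M : T → ι → ℝ) (hM : ∀ b, ∑ t, M t b = 0)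
    (u v : ι → T) (hu : Function.Injective u) (hv : Function.Injective v) :
    |(Matrix.of fun a b : ι => M (u a) b).det| = |(Matrix.of fun a b : ι => M (v a) b).det| := by
  classical
  let f : T ≃ Fin (Fintype.card ι + 1) := Fintype.equivFinOfCardEq hc
  let g : ι ≃ Fin (Fintype.card ι) := Fintype.equivFin ι
  let M' : Matrix (Fin (Fintype.card ι + 1)) (Fin (Fintype.card ι)) ℝ :=
    Matrix.of fun i j => M (f.symm i) (g.symm j)
  have hM' : ∑ j, M' j = 0 := by
    funext b
    rw [Finset.sum_apply]
    show ∑ c, M (f.symm c) (g.symm b) = 0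
    rw [Equiv.sum_comp f.symm (fun t => M t (g.symm b))]
    exact hM _
  have key : ∀ u : ι → T, Function.Injective u → ∃ j₀,
      |(Matrix.of fun a b : ι => M (u a) b).det| = |(M'.submatrix (Fin.succAbove j₀) id).det| := by
    intro u hu
    have hns : ¬ Function.Surjective (fun a => f (u a)) := by
      intro hs
      have := Fintype.card_le_of_surjective _ hs
      rw [Fintype.card_fin] at this
      omega
    simp only [Function.Surjective] at hns
    push Not at hns
    obtain ⟨j₀, hj₀⟩ := hns
    have hex : ∀ i : Fin (Fintype.card ι), ∃ k, Fin.succAbove j₀ k = f (u (g.symm i)) := fun i =>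
      Fin.exists_succAbove_eq (hj₀ (g.symm i))
    choose σ hσ using hex
    have hσi : Function.Injective σ := by
      intro i j hij
      have h1 : f (u (g.symm i)) = f (u (g.symm j)) := by rw [← hσ, ← hσ, hij]
      exact g.symm.injective (hu (f.injective h1))
    let τ : Fin (Fintype.card ι) ≃ Fin (Fintype.card ι) :=
      Equiv.ofBijective σ (Finite.injective_iff_bijective.1 hσi)
    refine ⟨j₀, ?_⟩
    rw [← Matrix.abs_det_submatrix_equiv_equiv (g.trans τ) g]
    congr 2
    ext a b
    show M (u a) b = M (f.symm (Fin.succAbove j₀ (σ (g a)))) (g.symm (g b))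
    rw [hσ, Equiv.symm_apply_apply, Equiv.symm_apply_apply, Equiv.symm_apply_apply]
  obtain ⟨j₁, h1⟩ := key u hu
  obtain ⟨j₂, h2⟩ := key v hv
  rw [h1, h2, Matrix.submatrix_succAbove_det_eq_negOnePow_submatrix_succAbove_det M' hM' j₁ j₂,
    Units.smul_def, zsmul_eq_mul, abs_mul]
  have : |((Int.negOnePow (j₁ - j₂ : ℤ) : ℤ) : ℝ)| = 1 := by
    rw [← Int.cast_abs, Int.abs_negOnePow, Int.cast_one]
  rw [this, one_mul]

/-- The places in `∞ ∪ A`. -/
def pl (K : Type) [Field K] [NumberField K] (A : Finset (HeightOneSpectrum (𝓞 K))) :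
    InfinitePlace K ⊕ A → Place K := Sum.map id Subtype.val

theorem pl_inj (K : Type) [Field K] [NumberField K] (A : Finset (HeightOneSpectrum (𝓞 K))) :
    Function.Injective (pl K A) :=
  Sum.map_injective.2 ⟨Function.injective_id, Subtype.val_injective⟩

theorem adic_one {K : Type} [Field K] [NumberField K] (P : HeightOneSpectrum (𝓞 K)) (x : K)
    (h : P.valuation K x = 1) : HeightOneSpectrum.adicAbv K P x = 1 := by
  rw [HeightOneSpectrum.adicAbv_def, h, map_one, NNReal.coe_one]

/-- The product formula for `A`-units. -/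
theorem prodF (K : Type) [Field K] [NumberField K] (A : Finset (HeightOneSpectrum (𝓞 K)))
    (x : Kˣ) (hx : x ∈ SU K (A : Set (HeightOneSpectrum (𝓞 K)))) :
    ∑ t : InfinitePlace K ⊕ A, Real.log (av (pl K A t) (x : K)) = 0 := by
  rw [Fintype.sum_sum_type]
  have h := NumberField.prod_abs_eq_one (K := K) x.ne_zero
  rw [← finprod_comp_equiv FinitePlace.equivHeightOneSpectrum.symm] at h
  simp only [FinitePlace.equivHeightOneSpectrum_symm_apply, FinitePlace.norm_embedding] at h
  rw [finprod_eq_prod_of_mulSupport_subset (s := A) _ (by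
    intro P hP
    by_contra hPA
    exact hP (adic_one P _ (hx P hPA)))] at h
  have h1 : ∀ w : InfinitePlace K, w (x : K) ^ w.mult ≠ 0 := fun w =>
    pow_ne_zero _ ((map_ne_zero w).2 x.ne_zero)
  have h2 : ∀ P : HeightOneSpectrum (𝓞 K), HeightOneSpectrum.adicAbv K P (x : K) ≠ 0 := fun P =>
    (map_ne_zero (HeightOneSpectrum.adicAbv K P)).2 x.ne_zero
  have h3 := congrArg Real.log h
  rw [Real.log_one, Real.log_mul (Finset.prod_ne_zero_iff.2 fun w _ => h1 w)
    (Finset.prod_ne_zero_iff.2 fun P _ => h2 P), Real.log_prod (fun w _ => h1 w),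
    Real.log_prod (fun P _ => h2 P)] at h3
  rw [← h3]
  congr 1
  exact Finset.sum_coe_sort A fun P => Real.log (HeightOneSpectrum.adicAbv K P (x : K))

/-- Subgroups of `ℤ ^ A` are generated by `|A|` elements. -/
theorem gens {A : Type} [Fintype A] (J : Subgroup (Multiplicative (A → ℤ))) :
    ∃ y : A → Multiplicative (A → ℤ), Subgroup.closure (Set.range y) = J := by
  classical
  let N : Submodule ℤ (A → ℤ) := AddSubgroup.toIntSubmodule (Subgroup.toAddSubgroup' J)
  obtain ⟨m, ⟨b⟩⟩ := Submodule.nonempty_basis_of_pid (Pi.basisFun ℤ A) N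
  have hm : m ≤ Fintype.card A := by
    have h1 := Submodule.finrank_le N
    rw [Module.finrank_eq_card_basis b, Fintype.card_fin, Module.finrank_pi] at h1
    exact h1
  obtain ⟨j⟩ : Nonempty (Fin m ↪ A) := Function.Embedding.nonempty_of_card_le (by
    rw [Fintype.card_fin]
    exact hm)
  let y : A → Multiplicative (A → ℤ) := fun Q =>
    if h : ∃ i, j i = Q then Multiplicative.ofAdd (b h.choose : A → ℤ) else 1
  have hy : ∀ i, y (j i) = Multiplicative.ofAdd (b i : A → ℤ) := by
    intro i
    have h : ∃ i', j i' = j i := ⟨i, rfl⟩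
    have h2 : h.choose = i := j.injective h.choose_spec
    show (if h : ∃ i', j i' = j i then Multiplicative.ofAdd (b h.choose : A → ℤ) else 1) = _
    rw [dif_pos h, h2]
  refine ⟨y, le_antisymm ?_ ?_⟩
  · rw [Subgroup.closure_le]
    rintro _ ⟨Q, rfl⟩
    show (if h : ∃ i, j i = Q then Multiplicative.ofAdd (b h.choose : A → ℤ) else 1) ∈ J
    split_ifs with h
    · exact (b h.choose).2
    · exact J.one_mem
  · intro z hz
    have hz' : Multiplicative.toAdd z ∈ N := hz
    have h1 := b.sum_repr ⟨Multiplicative.toAdd z, hz'⟩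
    have h2 : z = ∏ i, (y (j i)) ^ (b.repr ⟨Multiplicative.toAdd z, hz'⟩ i) := by
      apply Multiplicative.toAdd.injective
      rw [toAdd_prod]
      have h3 := congrArg (Subtype.val) h1
      simp only at h3
      refine h3.symm.trans ?_
      rw [Submodule.coe_sum]
      apply Finset.sum_congr rfl
      intro i _
      rw [hy, toAdd_zpow, toAdd_ofAdd]
      rfl
    rw [h2]
    exact Subgroup.prod_mem _ fun i _ => Subgroup.zpow_mem _ (Subgroup.subset_closure (Set.mem_range_self _)) _

/-- The index of a subgroup of `ℤ ^ A` as a determinant. -/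
theorem idx (D : S_DETIDX) {A : Type} [Fintype A] [DecidableEq A]
    (J : Subgroup (Multiplicative (A → ℤ))) (y : A → Multiplicative (A → ℤ))
    (hy : Subgroup.closure (Set.range y) = J) :
    |(Matrix.of fun a b : A => ((Multiplicative.toAdd (y b) a : ℤ) : ℝ)).det| = (J.index : ℝ) := by
  classical
  let Λ : Multiplicative (A → ℤ) →* Multiplicative (A → ℝ) :=
    AddMonoidHom.toMultiplicative
      { toFun := fun z a => (z a : ℝ)
        map_zero' := by funext a; simp
        map_add' := by intro z z'; funext a; simp }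
  have hΛ : ∀ z a, Multiplicative.toAdd (Λ z) a = ((Multiplicative.toAdd z a : ℤ) : ℝ) :=
    fun z a => rfl
  have hdet : (Matrix.of fun a b : A => Multiplicative.toAdd
      (Λ (Multiplicative.ofAdd (Pi.single b (1 : ℤ)))) a) = 1 := by
    ext a b
    rw [Matrix.of_apply, hΛ, toAdd_ofAdd, Matrix.one_apply, Pi.single_apply]
    split_ifs <;> simp
  have h1 := D (Multiplicative (A → ℤ)) A Λ ⊤ ⊥ bot_le (by
      rintro z hz
      rw [Subgroup.mem_bot] at hz
      rw [hz, map_one])
    (fun b => Multiplicative.ofAdd (Pi.single b (1 : ℤ))) y (by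
      rw [sup_bot_eq, eq_top_iff]
      intro z _
      have h2 : z = ∏ b, (Multiplicative.ofAdd (Pi.single b (1 : ℤ)) :
          Multiplicative (A → ℤ)) ^ (Multiplicative.toAdd z b) := by
        apply Multiplicative.toAdd.injective
        rw [toAdd_prod]
        funext a
        rw [Finset.sum_apply]
        simp only [toAdd_zpow, toAdd_ofAdd, Pi.smul_apply, Pi.single_apply, smul_eq_mul]
        simp
      rw [h2]
      exact Subgroup.prod_mem _ fun i _ =>
        Subgroup.zpow_mem _ (Subgroup.subset_closure (Set.mem_range_self _)) _)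
    (fun b => Subgroup.mem_top _) (by rw [hdet, Matrix.det_one]; exact one_ne_zero)
  rw [hdet, Matrix.det_one, abs_one, mul_one, sup_bot_eq, hy, Subgroup.relIndex_top_right] at h1
  exact h1

end Pool.Agent.K3h40.E2
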